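import Mathlib
import Pool.Agent.H538R3.CBCard

set_option autoImplicit false

open Filter Set Cardinal Topology

namespace Pool.Agent.Results.MP_2aae10_lc.PFilterBarrier

/-- A P-filter on `ℕ`: a proper filter containing all cofinite sets such that every countable
subfamily `s 0, s 1, ...` has a pseudo-intersection `P` in the filter. -/
def IsPFilter (L : Filter ℕ) : Prop :=
  L.NeBot ∧ (∀ s : Set ℕ, sᶜ.Finite → s ∈ L) ∧
    ∀ s : ℕ → Set ℕ, (∀ n, s n ∈ L) → ∃ P ∈ L, ∀ n, (P \ s n).Finite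

/-- The bounding number `𝔟`: the least cardinality of a family of functions `ℕ → ℕ` with no
common upper bound modulo finite sets. -/
noncomputable def boundingNumber : Cardinal.{0} :=
  sInf {κ | ∃ B : Set (ℕ → ℕ), (∀ g : ℕ → ℕ, ∃ f ∈ B, ¬ ∀ᶠ n in atTop, f n ≤ g n) ∧ #B = κ}

/-- The dominating number `𝔡`: the least cardinality of a family of functions `ℕ → ℕ` that
dominates every function `ℕ → ℕ` modulo finite sets. -/
noncomputable def dominatingNumber : Cardinal.{0} :=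
  sInf {κ | ∃ D : Set (ℕ → ℕ), (∀ f : ℕ → ℕ, ∃ g ∈ D, ∀ᶠ n in atTop, f n ≤ g n) ∧ #D = κ}

/-- The tower number `𝔱`: the least cardinality of a family of infinite subsets of `ℕ` that is
linearly ordered by inclusion modulo finite sets and has no infinite pseudo-intersection. -/
noncomputable def towerNumber : Cardinal.{0} :=
  sInf {κ | ∃ T : Set (Set ℕ), (∀ s ∈ T, s.Infinite) ∧
    (∀ s ∈ T, ∀ t ∈ T, (s \ t).Finite ∨ (t \ s).Finite) ∧
    (¬ ∃ P : Set ℕ, P.Infinite ∧ ∀ s ∈ T, (P \ s).Finite) ∧ #T = κ}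

/-- `cof([κ]^ω)`: the least cardinality of a family of countable subsets of a set of size `κ`
such that every countable subset is contained in a member of the family. -/
noncomputable def cofCountable (κ : Cardinal.{0}) : Cardinal.{0} :=
  sInf {c | ∃ F : Set (Set κ.out), (∀ s ∈ F, s.Countable) ∧
    (∀ s : Set κ.out, s.Countable → ∃ t ∈ F, s ⊆ t) ∧ #F = c}

open Pool.Agent.H538R3.CB

lemma not_dominating_of_small {J : Type} (f : J → ℕ → ℕ) (h : #J < dominatingNumber) :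
    ∃ h : ℕ → ℕ, ∀ j, ∃ᶠ n in atTop, f j n < h n := by
  by_contra hcon
  push Not at hcon
  have h1 : dominatingNumber ≤ #(range f) := by
    refine csInf_le' ⟨range f, ?_, rfl⟩
    intro g
    obtain ⟨j, hj⟩ := hcon g
    exact ⟨f j, mem_range_self j, hj⟩
  exact absurd (h1.trans mk_range_le) (not_le.2 h)

lemma bounded_of_small {J : Type} (f : J → ℕ → ℕ) (h : #J < boundingNumber) :
    ∃ H : ℕ → ℕ, ∀ j, ∀ᶠ n in atTop, f j n ≤ H n := by
  by_contra hcon
  push Not at hcon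
  have h1 : boundingNumber ≤ #(range f) := by
    refine csInf_le' ⟨range f, ?_, rfl⟩
    intro g
    obtain ⟨j, hj⟩ := hcon g
    refine ⟨f j, mem_range_self j, ?_⟩
    rw [not_eventually]
    exact hj.mono fun n hn => not_le.2 hn
  exact absurd (h1.trans mk_range_le) (not_le.2 h)

lemma exists_dominating : ∃ D : Set (ℕ → ℕ),
    (∀ f : ℕ → ℕ, ∃ g ∈ D, ∀ᶠ n in atTop, f n ≤ g n) ∧ #D = dominatingNumber :=
  csInf_mem (s := {κ | ∃ D : Set (ℕ → ℕ),
    (∀ f : ℕ → ℕ, ∃ g ∈ D, ∀ᶠ n in atTop, f n ≤ g n) ∧ #D = κ})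
    ⟨_, univ, fun f => ⟨f, mem_univ _, Eventually.of_forall fun _ => le_rfl⟩, rfl⟩

lemma exists_unbounded : ∃ B : Set (ℕ → ℕ),
    (∀ g : ℕ → ℕ, ∃ f ∈ B, ¬ ∀ᶠ n in atTop, f n ≤ g n) ∧ #B = boundingNumber :=
  csInf_mem (s := {κ | ∃ B : Set (ℕ → ℕ),
    (∀ g : ℕ → ℕ, ∃ f ∈ B, ¬ ∀ᶠ n in atTop, f n ≤ g n) ∧ #B = κ})
    ⟨_, univ, fun g => ⟨fun n => g n + 1, mem_univ _, by
      intro h
      obtain ⟨n, hn⟩ := h.exists
      simp at hn⟩, rfl⟩

lemma bounding_le_dominating : boundingNumber ≤ dominatingNumber := by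
  obtain ⟨D, hD, hDc⟩ := exists_dominating
  rw [← hDc]
  refine csInf_le' ⟨D, ?_, rfl⟩
  intro g
  obtain ⟨f, hf, hfg⟩ := hD (fun n => g n + 1)
  refine ⟨f, hf, fun h => ?_⟩
  obtain ⟨n, hn1, hn2⟩ := (hfg.and h).exists
  omega

lemma mk_Iio_small {κ : Cardinal.{0}} (a : κ.ord.ToType) : #(Iio a) < Cardinal.mk κ.ord.ToType :=
  mk_Iio_lt a (by simp)

/-- An unbounded family indexed by `𝔟`. -/
lemma exists_unbounded_indexed : ∃ u : boundingNumber.ord.ToType → ℕ → ℕ,
    ∀ H : ℕ → ℕ, ∃ a, ¬ ∀ᶠ n in atTop, u a n ≤ H n := by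
  obtain ⟨B, hB, hBc⟩ := exists_unbounded
  have : #B = Cardinal.mk boundingNumber.ord.ToType := by rw [hBc]; simp
  obtain ⟨e⟩ := Cardinal.eq.1 this
  refine ⟨fun a => (e.symm a).1, fun H => ?_⟩
  obtain ⟨f, hf, h⟩ := hB H
  exact ⟨e ⟨f, hf⟩, by simpa using h⟩

lemma case_b_lt_d (h : boundingNumber < dominatingNumber) : ∃ L : Filter ℕ, NMP L := by
  obtain ⟨u, hu⟩ := exists_unbounded_indexed
  refine exists_NMP_of_b_lt_d mk_Iio_small ?_ u hu ?_
  · intro J f hJ
    exact bounded_of_small f (by simpa using hJ)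
  · intro f
    exact not_dominating_of_small f (by simpa using h)

lemma case_t_eq_b (h : boundingNumber ≤ towerNumber) : ∃ L : Filter ℕ, NMP L := by
  obtain ⟨u, hu⟩ := exists_unbounded_indexed
  refine exists_NMP_of_t_eq_b mk_Iio_small ?_ u hu ?_
  · intro J f hJ
    exact bounded_of_small f (by simpa using hJ)
  · intro J T hJ hinf hlin
    have conv : ∀ s t : Set ℕ, (∀ᶠ k in atTop, k ∈ s → k ∈ t) ↔ (s \ t).Finite := by
      intro s t
      rw [← Nat.cofinite_eq_atTop, eventually_cofinite]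
      have : {x | ¬(x ∈ s → x ∈ t)} = s \ t := by
        ext x; simp
      rw [this]
    by_contra hcon
    have h1 : towerNumber ≤ #(range T) := by
      refine csInf_le' ⟨range T, ?_, ?_, ?_, rfl⟩
      · rintro _ ⟨j, rfl⟩; exact hinf j
      · rintro _ ⟨i, rfl⟩ _ ⟨j, rfl⟩
        rw [← conv, ← conv]
        exact hlin i j
      · rintro ⟨P, hP, hP2⟩
        exact hcon ⟨P, hP, fun j => (conv _ _).2 (hP2 _ (mem_range_self j))⟩
    have h2 : #J < boundingNumber := by simpa using hJ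
    exact absurd (h1.trans mk_range_le) (not_le.2 (h2.trans_le h))

lemma case_cof (h : cofCountable dominatingNumber ≤ dominatingNumber) :
    ∃ L : Filter ℕ, NMP L := by
  obtain ⟨D, hD, hDc⟩ := exists_dominating
  obtain ⟨F, hF1, hF2, hFc⟩ := csInf_mem (s := {c | ∃ F : Set (Set dominatingNumber.out),
    (∀ s ∈ F, s.Countable) ∧
    (∀ s : Set dominatingNumber.out, s.Countable → ∃ t ∈ F, s ⊆ t) ∧ #F = c})
    ⟨_, {s | s.Countable}, fun s hs => hs, fun s hs => ⟨s, hs, Subset.rfl⟩, rfl⟩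
  have hFc' : #F ≤ dominatingNumber := by
    rw [hFc]; exact h
  have : Cardinal.mk dominatingNumber.out = Cardinal.mk dominatingNumber.ord.ToType := by simp
  obtain ⟨e⟩ := Cardinal.eq.1 this
  refine exists_NMP_of_cof (ι := dominatingNumber.ord.ToType) mk_Iio_small ?_ D hD ?_
    ((fun s => e '' s) '' F) ?_ ?_ ?_
  · intro J f hJ
    exact not_dominating_of_small f (by simpa using hJ)
  · rw [hDc]; simp
  · rintro _ ⟨s, hs, rfl⟩
    exact (hF1 s hs).image e
  · intro s hs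
    obtain ⟨t, ht, hst⟩ := hF2 (e.symm '' s) (hs.image _)
    refine ⟨e '' t, ⟨t, ht, rfl⟩, ?_⟩
    intro x hx
    exact ⟨e.symm x, hst ⟨x, hx, rfl⟩, by simp⟩
  · refine mk_image_le.trans ?_
    simpa using hFc'

lemma aleph0_lt_bounding : ℵ₀ < boundingNumber := by
  obtain ⟨u, hu⟩ := exists_unbounded_indexed
  simpa using unc_of_unbounded u hu

lemma cofCountable_le_of_cov {κ : Cardinal.{0}} (h : Cov κ) : cofCountable κ ≤ κ := by
  obtain ⟨F, h1, h2, h3⟩ := h κ.out (by simp)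
  have h4 : cofCountable κ ≤ #F := csInf_le' ⟨F, h1, h2, rfl⟩
  exact h4.trans h3

lemma dominating_le_continuum : dominatingNumber ≤ 𝔠 := by
  have h1 : dominatingNumber ≤ #(Set.univ : Set (ℕ → ℕ)) :=
    csInf_le' ⟨Set.univ, fun f => ⟨f, mem_univ _, Eventually.of_forall fun _ => le_rfl⟩, rfl⟩
  refine h1.trans ?_
  rw [mk_univ]
  simp

lemma cofCountable_le_continuum {κ : Cardinal.{0}} (h : κ ≤ 𝔠) : cofCountable κ ≤ 𝔠 := by
  have h1 : cofCountable κ ≤ #{s : Set κ.out | s.Countable} :=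
    csInf_le' ⟨{s | s.Countable}, fun s hs => hs, fun s hs => ⟨s, hs, Subset.rfl⟩, rfl⟩
  refine h1.trans ?_
  have h2 : {s : Set κ.out | s.Countable} = {s : Set κ.out | #s ≤ ℵ₀} := by
    ext s
    simp
  rw [h2]
  have h3 : #{s : Set κ.out | #s ≤ ℵ₀} ≤ (max (Cardinal.mk κ.out) ℵ₀) ^ ℵ₀ :=
    mk_bounded_set_le κ.out ℵ₀
  refine h3.trans ?_
  calc (max (Cardinal.mk κ.out) ℵ₀) ^ ℵ₀ ≤ 𝔠 ^ ℵ₀ := by
        refine power_le_power_right (max_le ?_ aleph0_le_continuum)
        simpa using h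
    _ = 𝔠 := continuum_power_aleph0

/-- If a countable family of meagre relations on a Polish space has no dense, completely Baire
free set then every P-filter on `ℕ` is meagre, and hence `𝔱 < 𝔟 = 𝔡 < cof([𝔡]^ω)`; in
particular `ℵ_ω ≤ 𝔡 < 𝔠`. -/
theorem result (X : Type*) [TopologicalSpace X] [PolishSpace X]
    (n : ℕ → ℕ) (R : ∀ k : ℕ, Set (Fin (n k) → X)) (hR : ∀ k, IsMeagre (R k))
    (hbad : ¬ ∃ A : Set X, Dense A ∧ (∀ C : Set A, IsClosed C → BaireSpace C) ∧
      ∀ (k : ℕ) (f : Fin (n k) → X), Function.Injective f → (∀ i, f i ∈ A) → f ∉ R k) :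
    (∀ L : Filter ℕ, IsPFilter L → IsMeagre {x : ℕ → Bool | {m | x m = true} ∈ L}) ∧
      towerNumber < boundingNumber ∧ boundingNumber = dominatingNumber ∧
      dominatingNumber < cofCountable dominatingNumber ∧
      ℵ_ Ordinal.omega0 ≤ dominatingNumber ∧ dominatingNumber < 𝔠 := by
  have key : ∀ L : Filter ℕ, ¬ NMP L := fun L hL => hbad (main_of_NMP hL X n R hR)
  have hcof : dominatingNumber < cofCountable dominatingNumber := by
    by_contra hcon
    obtain ⟨L, hL⟩ := case_cof (not_lt.1 hcon)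
    exact key L hL
  refine ⟨?_, ?_, ?_, hcof, ?_, ?_⟩
  · rintro L ⟨h1, h2, h3⟩
    by_contra hcon
    exact key L (NMP_of_not_meagre L h1 h2 h3 hcon)
  · by_contra hcon
    obtain ⟨L, hL⟩ := case_t_eq_b (not_lt.1 hcon)
    exact key L hL
  · refine le_antisymm bounding_le_dominating ?_
    by_contra hcon
    obtain ⟨L, hL⟩ := case_b_lt_d (not_le.1 hcon)
    exact key L hL
  · by_contra hcon
    exact absurd (cofCountable_le_of_cov (cov_of_lt_aleph_omega
      (aleph0_lt_bounding.le.trans bounding_le_dominating) (not_le.1 hcon))) (not_le.2 hcof)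
  · exact hcof.trans_le (cofCountable_le_continuum dominating_le_continuum)

end Pool.Agent.Results.MP_2aae10_lc.PFilterBarrier
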